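import Mathlib.Analysis.Matrix.Spectrum
import Mathlib.Topology.Order.IntermediateValue
import Mathlib.LinearAlgebra.BilinearMap

/-!
# Quadratic forms which are nonnegative on the zero set of a cubic form
-/

set_option autoImplicit false

namespace Pool.Agent.U486.SN

open Finset

/-- a root between `-s` and `s` -/
theorem root_sym {F : ℝ → ℝ} (hF : Continuous F) (h0 : 0 < F 0) {s : ℝ} (hs : 0 ≤ s)
    (h : F s + F (-s) ≤ 0) : ∃ r, r ^ 2 ≤ s ^ 2 ∧ F r = 0 := by
  rcases le_total (F s) 0 with h1 | h1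
  · obtain ⟨r, hr, hr'⟩ := intermediate_value_Icc' hs hF.continuousOn ⟨h1, h0.le⟩
    exact ⟨r, by nlinarith [hr.1, hr.2], hr'⟩
  · have h2 : F (-s) ≤ 0 := by linarith
    obtain ⟨r, hr, hr'⟩ := intermediate_value_Icc (by linarith : -s ≤ 0) hF.continuousOn
      ⟨h2, h0.le⟩
    exact ⟨r, by nlinarith [hr.1, hr.2], hr'⟩

/-- a cubic polynomial has a root -/
theorem cubic_root {a b c d : ℝ} (hd : d ≠ 0) : ∃ s : ℝ, a + s * b + s ^ 2 * c + s ^ 3 * d = 0 := by
  set K : ℝ := (|a| + |b| + |c|) / |d| + 1 with hK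
  have hd' : 0 < |d| := abs_pos.mpr hd
  have hK1 : 1 ≤ K := by
    have : 0 ≤ (|a| + |b| + |c|) / |d| := by positivity
    linarith
  have hK0 : 0 < K := by linarith
  have hKd : |a| + |b| + |c| < K * |d| := by
    have h1 : K * |d| = |a| + |b| + |c| + |d| := by
      rw [hK]
      field_simp
    linarith
  have key : ∀ t : ℝ, |t| = K → 0 < t * d * (a + t * b + t ^ 2 * c + t ^ 3 * d) := by
    intro t ht
    have ht2 : t ^ 2 = K ^ 2 := by rw [← sq_abs, ht]
    have h1 : |a + t * b + t ^ 2 * c| ≤ (|a| + |b| + |c|) * K ^ 2 := by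
      calc |a + t * b + t ^ 2 * c| ≤ |a + t * b| + |t ^ 2 * c| := abs_add_le _ _
        _ ≤ |a| + |t * b| + |t ^ 2 * c| := by linarith [abs_add_le a (t * b)]
        _ = |a| + K * |b| + K ^ 2 * |c| := by rw [abs_mul, abs_mul, ht, abs_pow, ht]
        _ ≤ (|a| + |b| + |c|) * K ^ 2 := by
            nlinarith [abs_nonneg a, abs_nonneg b, abs_nonneg c, mul_nonneg (abs_nonneg a)
              (sub_nonneg.mpr hK1), mul_nonneg (abs_nonneg b) (sub_nonneg.mpr hK1),
              mul_nonneg (mul_nonneg (abs_nonneg b) hK0.le) (sub_nonneg.mpr hK1),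
              mul_nonneg (mul_nonneg (abs_nonneg a) hK0.le) (sub_nonneg.mpr hK1)]
    have h2 : |t * d * (a + t * b + t ^ 2 * c)| ≤ K * |d| * ((|a| + |b| + |c|) * K ^ 2) := by
      rw [abs_mul, abs_mul, ht]
      exact mul_le_mul_of_nonneg_left h1 (by positivity)
    have h3 : t * d * (t ^ 3 * d) = K ^ 4 * |d| ^ 2 := by
      rw [sq_abs]
      have : t ^ 4 = K ^ 4 := by
        calc t ^ 4 = (t ^ 2) ^ 2 := by ring
          _ = (K ^ 2) ^ 2 := by rw [ht2]
          _ = K ^ 4 := by ring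
      linear_combination d ^ 2 * this
    have h4 : K * |d| * ((|a| + |b| + |c|) * K ^ 2) < K ^ 4 * |d| ^ 2 := by
      have h5 : K * |d| * ((|a| + |b| + |c|) * K ^ 2) = K ^ 3 * |d| * (|a| + |b| + |c|) := by ring
      have h6 : K ^ 4 * |d| ^ 2 = K ^ 3 * |d| * (K * |d|) := by ring
      rw [h5, h6]
      exact mul_lt_mul_of_pos_left hKd (by positivity)
    have h7 := neg_abs_le (t * d * (a + t * b + t ^ 2 * c))
    have h8 : t * d * (a + t * b + t ^ 2 * c + t ^ 3 * d) =
        t * d * (a + t * b + t ^ 2 * c) + t * d * (t ^ 3 * d) := by ring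
    rw [h8, h3]
    linarith
  have hcont : Continuous fun s : ℝ => d * (a + s * b + s ^ 2 * c + s ^ 3 * d) := by fun_prop
  have hp := key K (abs_of_pos hK0)
  have hn := key (-K) (by rw [abs_neg, abs_of_pos hK0])
  have hp' : 0 < d * (a + K * b + K ^ 2 * c + K ^ 3 * d) := by
    have : K * d * (a + K * b + K ^ 2 * c + K ^ 3 * d) =
        K * (d * (a + K * b + K ^ 2 * c + K ^ 3 * d)) := by ring
    rw [this] at hp
    exact (pos_iff_pos_of_mul_pos hp).mp hK0
  have hn' : d * (a + (-K) * b + (-K) ^ 2 * c + (-K) ^ 3 * d) < 0 := by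
    have : -K * d * (a + -K * b + (-K) ^ 2 * c + (-K) ^ 3 * d) =
        K * (-(d * (a + (-K) * b + (-K) ^ 2 * c + (-K) ^ 3 * d))) := by ring
    rw [this] at hn
    have := (pos_iff_pos_of_mul_pos hn).mp hK0
    linarith
  obtain ⟨s, _, hs⟩ := intermediate_value_Icc (by linarith : -K ≤ K) hcont.continuousOn
    ⟨hn'.le, hp'.le⟩
  exact ⟨s, (mul_eq_zero.mp hs).resolve_left hd⟩

/-- the inequality for one pair -/
theorem pair_ineq {w₀ w σ t n : ℝ} (hw₀ : w₀ < 0)
    (h : ∀ s : ℝ, 1 + s * t + s ^ 2 * σ + s ^ 3 * n = 0 → 0 ≤ w₀ + s ^ 2 * w)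
    (hn : n = 0 → 0 ≤ w) : σ * w₀ ≤ w := by
  rcases lt_or_ge σ 0 with hσ | hσ
  · have hi : 0 < -1 / σ := div_pos_of_neg_of_neg (by norm_num) hσ
    set s : ℝ := Real.sqrt (-1 / σ) with hs
    have hs2 : s ^ 2 = -1 / σ := Real.sq_sqrt hi.le
    have hcont : Continuous fun s : ℝ => 1 + s * t + s ^ 2 * σ + s ^ 3 * n := by fun_prop
    have hsσ : s ^ 2 * σ = -1 := by
      rw [hs2, div_mul_cancel₀ _ hσ.ne]
    obtain ⟨r, hr, hr'⟩ := root_sym hcont (s := s) (by norm_num) (Real.sqrt_nonneg _) (by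
      have : 1 + s * t + s ^ 2 * σ + s ^ 3 * n + (1 + -s * t + (-s) ^ 2 * σ + (-s) ^ 3 * n) =
          2 + 2 * (s ^ 2 * σ) := by ring
      rw [this, hsσ]
      norm_num)
    have h1 := h r hr'
    have hw : 0 < w := by
      by_contra hc
      push Not at hc
      nlinarith [sq_nonneg r]
    have h2 : 0 ≤ w₀ + s ^ 2 * w := by nlinarith
    have h3 : σ * (w₀ + s ^ 2 * w) ≤ 0 := mul_nonpos_of_nonpos_of_nonneg hσ.le h2
    have h4 : σ * (w₀ + s ^ 2 * w) = σ * w₀ + (s ^ 2 * σ) * w := by ring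
    rw [h4, hsσ] at h3
    linarith
  · have h1 : σ * w₀ ≤ 0 := mul_nonpos_of_nonneg_of_nonpos hσ hw₀.le
    refine h1.trans ?_
    by_contra hc
    push Not at hc
    have hn0 : n ≠ 0 := fun h2 => absurd (hn h2) (not_le.mpr hc)
    obtain ⟨s, hs⟩ := cubic_root (a := 1) (b := t) (c := σ) hn0
    have := h s hs
    nlinarith [sq_nonneg s]

/-- Let `N` be a cubic form and let `W` be a quadratic form which is nonnegative on the zero set
of `N`. Then `∑ W (B j) ≥ 0` for all families with `∑ Q x (B j) (B j) = 0` for all `x`, where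
`Q x y y` is the coefficient of `s ^ 2` in `N (x + s y)`. -/
theorem cub_quad {E : Type} [AddCommGroup E] [Module ℝ E] (W : E →ₗ[ℝ] E →ₗ[ℝ] ℝ)
    (hW : ∀ x y, W x y = W y x) (N : E → ℝ) (L : E → E → ℝ) (Q : E → E →ₗ[ℝ] E →ₗ[ℝ] ℝ)
    (hN : ∀ x y (s : ℝ), N (x + s • y) = N x + s * L x y + s ^ 2 * Q x y y + s ^ 3 * N y)
    (hQ : ∀ x, Q x x x = 3 * N x) (hWN : ∀ x, N x = 0 → 0 ≤ W x x)
    {n : ℕ} (B : Fin n → E) (hB : ∀ x, ∑ j, Q x (B j) (B j) = 0) :
    0 ≤ ∑ j, W (B j) (B j) := by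
  classical
  set M : Matrix (Fin n) (Fin n) ℝ := Matrix.of fun i j => W (B i) (B j) with hM
  have hMh : M.IsHermitian := by
    ext i j
    simp only [Matrix.conjTranspose_apply, hM, Matrix.of_apply, star_trivial]
    exact hW _ _
  set U : Matrix (Fin n) (Fin n) ℝ := (hMh.eigenvectorUnitary : Matrix (Fin n) (Fin n) ℝ) with hU
  have hU1 : U * U.transpose = 1 := by
    have := Matrix.mem_unitaryGroup_iff.mp hMh.eigenvectorUnitary.2
    rw [Matrix.star_eq_conjTranspose, Matrix.conjTranspose_eq_transpose_of_trivial] at this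
    exact this
  have hU2 : U.transpose * M * U = Matrix.diagonal hMh.eigenvalues := by
    have := hMh.conjStarAlgAut_star_eigenvectorUnitary
    rw [Unitary.conjStarAlgAut_star_apply, Matrix.star_eq_conjTranspose,
      Matrix.conjTranspose_eq_transpose_of_trivial] at this
    exact this
  set B' : Fin n → E := fun i => ∑ j, U j i • B j with hB'
  -- sums of squares are unchanged
  have hsum : ∀ G : E →ₗ[ℝ] E →ₗ[ℝ] ℝ, ∑ i, G (B' i) (B' i) = ∑ j, G (B j) (B j) := by
    intro G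
    have h1 : ∀ i, G (B' i) (B' i) = ∑ j, ∑ k, (U j i * U k i) * G (B j) (B k) := by
      intro i
      simp only [hB', map_sum, map_smul, LinearMap.sum_apply, LinearMap.smul_apply, smul_eq_mul]
      rw [Finset.sum_comm]
      refine Finset.sum_congr rfl fun j _ => ?_
      rw [Finset.mul_sum]
      refine Finset.sum_congr rfl fun k _ => ?_
      ring
    simp only [h1]
    rw [Finset.sum_comm]
    refine Finset.sum_congr rfl fun j _ => ?_
    rw [Finset.sum_comm]
    have h2 : ∀ k, ∑ i, U j i * U k i * G (B j) (B k) =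
        (if j = k then 1 else 0) * G (B j) (B k) := by
      intro k
      rw [← Finset.sum_mul]
      congr 1
      have := congrFun (congrFun hU1 j) k
      rw [Matrix.mul_apply, Matrix.one_apply] at this
      exact this
    simp only [h2]
    simp
  have hdiag : ∀ i k, W (B' i) (B' k) = if i = k then hMh.eigenvalues i else 0 := by
    intro i k
    have h1 : W (B' i) (B' k) = (U.transpose * M * U) i k := by
      simp only [hB', map_sum, map_smul, LinearMap.sum_apply, LinearMap.smul_apply, smul_eq_mul,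
        Matrix.mul_apply, Matrix.transpose_apply, hM, Matrix.of_apply, Finset.sum_mul,
        Finset.mul_sum]
      refine Finset.sum_congr rfl fun j _ => Finset.sum_congr rfl fun l _ => ?_
      ring
    rw [h1, hU2, Matrix.diagonal_apply]
  rw [← hsum W]
  by_contra hneg
  push Not at hneg
  obtain ⟨i₀, hi₀⟩ : ∃ i, W (B' i) (B' i) < 0 := by
    by_contra hc
    push Not at hc
    exact absurd (Finset.sum_nonneg fun i _ => hc i) (not_le.mpr hneg)
  have hN0 : N (B' i₀) ≠ 0 := fun h => absurd (hWN _ h) (not_le.mpr hi₀)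
  have hb := (hsum (Q (B' i₀))).trans (hB (B' i₀))
  have key : ∀ j, j ≠ i₀ → Q (B' i₀) (B' j) (B' j) / N (B' i₀) * W (B' i₀) (B' i₀) ≤
      W (B' j) (B' j) := by
    intro j hj
    refine pair_ineq (t := L (B' i₀) (B' j) / N (B' i₀)) (n := N (B' j) / N (B' i₀)) hi₀ ?_ ?_
    · intro s hs
      have h1 : N (B' i₀ + s • B' j) = 0 := by
        rw [hN]
        have : N (B' i₀) + s * L (B' i₀) (B' j) + s ^ 2 * Q (B' i₀) (B' j) (B' j) +
            s ^ 3 * N (B' j) = N (B' i₀) * (1 + s * (L (B' i₀) (B' j) / N (B' i₀)) +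
              s ^ 2 * (Q (B' i₀) (B' j) (B' j) / N (B' i₀)) +
              s ^ 3 * (N (B' j) / N (B' i₀))) := by
          field_simp
        rw [this, hs, mul_zero]
      have h2 := hWN _ h1
      have h3 : W (B' i₀ + s • B' j) (B' i₀ + s • B' j) =
          W (B' i₀) (B' i₀) + s ^ 2 * W (B' j) (B' j) := by
        simp only [map_add, map_smul, LinearMap.add_apply, LinearMap.smul_apply, smul_eq_mul]
        rw [hdiag i₀ j, hdiag j i₀, if_neg hj, if_neg (Ne.symm hj)]
        ring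
      rw [h3] at h2
      exact h2
    · intro h
      refine hWN _ ?_
      exact (div_eq_zero_iff.mp h).resolve_right hN0
  have h1 : ∑ j ∈ univ.erase i₀, Q (B' i₀) (B' j) (B' j) / N (B' i₀) = -3 := by
    rw [← Finset.sum_div, div_eq_iff hN0]
    rw [← Finset.add_sum_erase _ _ (Finset.mem_univ i₀), hQ] at hb
    linarith
  have h2 : ∑ j ∈ univ.erase i₀, Q (B' i₀) (B' j) (B' j) / N (B' i₀) * W (B' i₀) (B' i₀) ≤
      ∑ j ∈ univ.erase i₀, W (B' j) (B' j) :=
    Finset.sum_le_sum fun j hj => key j (Finset.ne_of_mem_erase hj)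
  rw [← Finset.sum_mul, h1] at h2
  rw [← Finset.add_sum_erase _ _ (Finset.mem_univ i₀)] at hneg
  linarith

end Pool.Agent.U486.SN
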