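import Mathlib.Analysis.Matrix.Spectrum
import Mathlib.Algebra.Order.Chebyshev
import Mathlib.LinearAlgebra.Matrix.DotProduct

/-!
# The trace of a symmetric matrix which vanishes on a subspace of small codimension
-/

set_option autoImplicit false

namespace Pool.Agent.U486.SN

open Finset Matrix

theorem frob_tr {K : ℕ} (H : Matrix (Fin K) (Fin K) ℝ) :
    ∑ k, ∑ l, H k l ^ 2 = (H.transpose * H).trace := by
  simp only [Matrix.trace, Matrix.diag_apply, Matrix.mul_apply, Matrix.transpose_apply, ← sq]
  exact Finset.sum_comm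

theorem tr_sq {K : ℕ} {ι : Type} [Fintype ι] (G : Matrix (Fin K) (Fin K) ℝ)
    (P : Matrix ι (Fin K) ℝ) {c : ℕ} (hc : Fintype.card ι ≤ c)
    (h : ∀ x, P *ᵥ x = 0 → x ⬝ᵥ G *ᵥ x = 0) : G.trace ^ 2 ≤ c * ∑ k, ∑ l, G k l ^ 2 := by
  classical
  set S : Matrix (Fin K) (Fin K) ℝ := P.transpose * P with hS
  have hSh : S.IsHermitian := by
    show S.conjTranspose = S
    rw [Matrix.conjTranspose_eq_transpose_of_trivial, hS]
    simp only [Matrix.transpose_mul, Matrix.transpose_transpose]
  set U : Matrix (Fin K) (Fin K) ℝ := (hSh.eigenvectorUnitary : Matrix (Fin K) (Fin K) ℝ) with hU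
  have hU1 : U * U.transpose = 1 := by
    have := Matrix.mem_unitaryGroup_iff.mp hSh.eigenvectorUnitary.2
    rw [Matrix.star_eq_conjTranspose, Matrix.conjTranspose_eq_transpose_of_trivial] at this
    exact this
  have hU2 : U.transpose * S * U = Matrix.diagonal hSh.eigenvalues := by
    have := hSh.conjStarAlgAut_star_eigenvectorUnitary
    rw [Unitary.conjStarAlgAut_star_apply, Matrix.star_eq_conjTranspose,
      Matrix.conjTranspose_eq_transpose_of_trivial] at this
    exact this
  set H : Matrix (Fin K) (Fin K) ℝ := U.transpose * G * U with hH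
  have htr : H.trace = G.trace := by
    rw [hH, Matrix.trace_mul_comm, ← Matrix.mul_assoc, hU1, Matrix.one_mul]
  have hfr : ∑ k, ∑ l, H k l ^ 2 = ∑ k, ∑ l, G k l ^ 2 := by
    rw [frob_tr, frob_tr]
    have : H.transpose * H = U.transpose * (G.transpose * G) * U := by
      rw [hH]
      simp only [Matrix.transpose_mul, Matrix.transpose_transpose]
      calc U.transpose * (G.transpose * U) * (U.transpose * G * U) =
          U.transpose * G.transpose * (U * U.transpose) * G * U := by
            simp only [Matrix.mul_assoc]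
        _ = _ := by rw [hU1]; simp only [Matrix.mul_one, Matrix.mul_assoc]
    rw [this, Matrix.trace_mul_comm, ← Matrix.mul_assoc, hU1, Matrix.one_mul]
  set F : Finset (Fin K) := univ.filter fun k => hSh.eigenvalues k ≠ 0 with hF
  have hz : ∀ k, k ∉ F → H k k = 0 := by
    intro k hk
    have hk' : hSh.eigenvalues k = 0 := by
      by_contra hne
      exact hk (by simp [hF, hne])
    have h1 : (P *ᵥ fun j => U j k) ⬝ᵥ (P *ᵥ fun j => U j k) = 0 := by
      have h2 : (U.transpose * S * U) k k = 0 := by
        rw [hU2, Matrix.diagonal_apply_eq, hk']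
      rw [← h2]
      have h3 : (U.transpose * S * U) = (P * U).transpose * (P * U) := by
        rw [hS, Matrix.transpose_mul]
        simp only [Matrix.mul_assoc]
      rw [h3, Matrix.mul_apply]
      rfl
    have h2 : (P *ᵥ fun j => U j k) = 0 := dotProduct_self_eq_zero.mp h1
    have h3 := h _ h2
    rw [← h3, hH]
    simp only [Matrix.mul_apply, Matrix.transpose_apply, dotProduct, Matrix.mulVec]
    simp only [Finset.sum_mul, Finset.mul_sum]
    rw [Finset.sum_comm]
    refine Finset.sum_congr rfl fun i _ => Finset.sum_congr rfl fun j _ => ?_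
    ring
  have hcard : F.card ≤ c := by
    refine le_trans ?_ hc
    have h1 := hSh.rank_eq_card_non_zero_eigs
    rw [Fintype.card_subtype] at h1
    have h2 : S.rank ≤ Fintype.card ι := by
      rw [hS]
      exact (Matrix.rank_mul_le_right _ _).trans (Matrix.rank_le_card_height P)
    rw [h1] at h2
    exact h2
  have h1 : G.trace = ∑ k ∈ F, H k k := by
    rw [← htr, Matrix.trace]
    symm
    refine Finset.sum_subset (Finset.subset_univ _) fun k _ hk => ?_
    exact hz k hk
  rw [h1, ← hfr]
  calc (∑ k ∈ F, H k k) ^ 2 ≤ F.card * ∑ k ∈ F, H k k ^ 2 := sq_sum_le_card_mul_sum_sq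
    _ ≤ c * ∑ k ∈ F, H k k ^ 2 := by
        refine mul_le_mul_of_nonneg_right (by exact_mod_cast hcard)
          (Finset.sum_nonneg fun _ _ => sq_nonneg _)
    _ ≤ c * ∑ k, ∑ l, H k l ^ 2 := by
        refine mul_le_mul_of_nonneg_left ?_ (Nat.cast_nonneg _)
        calc ∑ k ∈ F, H k k ^ 2 ≤ ∑ k, H k k ^ 2 :=
              Finset.sum_le_sum_of_subset_of_nonneg (Finset.subset_univ _) fun _ _ _ => sq_nonneg _
          _ ≤ ∑ k, ∑ l, H k l ^ 2 := Finset.sum_le_sum fun k _ =>
              Finset.single_le_sum (f := fun l => H k l ^ 2) (fun _ _ => sq_nonneg _)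
                (Finset.mem_univ k)

end Pool.Agent.U486.SN
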