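import Pool.Agent.U486.SN.Pf
import Pool.Agent.U486.SN.Tr
import Pool.Agent.U486.SN.Cub

/-!
# Degenerate skew matrices of size six
-/

set_option autoImplicit false

namespace Pool.Agent.U486.SN

open Finset Matrix

theorem exists_sb {C : Rm} (hC : ∀ i j, C j i = - C i j) :
    ∃ x y : Fin 3 → J6 → ℝ, C = sb x y := by
  classical
  set M : Matrix J6 J6 ℝ := Matrix.of fun i j => C j i with hM
  set T : EuclideanSpace ℝ J6 →ₗ[ℝ] EuclideanSpace ℝ J6 := Matrix.toEuclideanLin M with hT
  have hin : ∀ u v : EuclideanSpace ℝ J6, inner ℝ (T u) v = ∑ i, ∑ j, C i j * (u i * v j) := by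
    intro u v
    rw [PiLp.inner_apply]
    simp only [hT, Matrix.toEuclideanLin_apply, Matrix.mulVec, dotProduct, hM, Matrix.of_apply,
      RCLike.inner_apply, conj_trivial, Finset.mul_sum]
    rw [Finset.sum_comm]
    refine Finset.sum_congr rfl fun i _ => Finset.sum_congr rfl fun j _ => ?_
    ring
  obtain ⟨x, y, c, h⟩ := Pool.Agent.U486.HF.comm_span 3 (EuclideanSpace ℝ J6)
    (by simp) 1 (fun _ => T) (fun _ u v => by
      rw [hin, real_inner_comm, hin, Finset.sum_comm, ← Finset.sum_neg_distrib]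
      refine Finset.sum_congr rfl fun i _ => ?_
      rw [← Finset.sum_neg_distrib]
      refine Finset.sum_congr rfl fun j _ => ?_
      rw [hC]
      ring) (fun _ _ _ => rfl)
  refine ⟨fun k i => c 0 k * x k i, fun k i => y k i, ?_⟩
  funext i j
  have h1 := h 0 (EuclideanSpace.single i 1) (EuclideanSpace.single j 1)
  rw [hin, Finset.sum_eq_single i, Finset.sum_eq_single j] at h1
  · simp only [EuclideanSpace.single_apply, if_true, mul_one] at h1
    rw [h1]
    unfold Pool.Agent.U486.HF.bivSum Pool.Agent.U486.HF.biv sb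
    refine Finset.sum_congr rfl fun k _ => ?_
    simp only [EuclideanSpace.inner_single_right, map_one, one_mul, conj_trivial]
    ring
  · intro k _ hk
    simp [EuclideanSpace.single_apply, hk]
  · simp
  · intro k _ hk
    simp [EuclideanSpace.single_apply, hk]
  · simp

theorem sb_mul (x y : Fin 3 → J6 → ℝ) (v : J6 → ℝ) (i : J6) :
    ∑ j, sb x y i j * v j = ∑ k, (x k i * ∑ j, y k j * v j - y k i * ∑ j, x k j * v j) := by
  unfold sb
  simp only [Finset.sum_mul, Finset.mul_sum]
  rw [Finset.sum_comm]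
  refine Finset.sum_congr rfl fun k _ => ?_
  rw [← Finset.sum_sub_distrib]
  refine Finset.sum_congr rfl fun j _ => ?_
  ring

theorem cols_transpose (x y : Fin 3 → J6 → ℝ) (v : J6 → ℝ) (k : Fin 3) (s : Bool) :
    ((cols x y).transpose *ᵥ v) (k, s) =
      if s = true then ∑ j, y k j * v j else ∑ j, x k j * v j := by
  cases s <;> simp [cols, Matrix.mulVec, dotProduct]

/-- a skew matrix with vanishing Pfaffian is degenerate -/
theorem exists_ker {C : Rm} (hC : ∀ i j, C j i = - C i j) (h : lr C C C = 0) :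
    ∃ v : J6 → ℝ, v ≠ 0 ∧ ∀ i, ∑ j, C i j * v j = 0 := by
  obtain ⟨x, y, rfl⟩ := exists_sb hC
  rw [lr_sb] at h
  have h1 : (cols x y).transpose.det = 0 := by
    rw [Matrix.det_transpose]
    linarith
  obtain ⟨v, hv, hv'⟩ := Matrix.exists_mulVec_eq_zero_iff.mpr h1
  refine ⟨v, hv, fun i => ?_⟩
  have hx : ∀ k, ∑ j, x k j * v j = 0 := by
    intro k
    have := cols_transpose x y v k false
    rw [hv'] at this
    simpa using this.symm
  have hy : ∀ k, ∑ j, y k j * v j = 0 := by
    intro k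
    have := cols_transpose x y v k true
    rw [hv'] at this
    simpa using this.symm
  rw [sb_mul]
  simp only [hx, hy, mul_zero, sub_zero, Finset.sum_const_zero]

/-- the Pfaffian of a degenerate skew matrix vanishes -/
theorem lr_ker {C : Rm} (hC : ∀ i j, C j i = - C i j) {v : J6 → ℝ} (hv : v ≠ 0)
    (h : ∀ i, ∑ j, C i j * v j = 0) : lr C C C = 0 := by
  obtain ⟨x, y, rfl⟩ := exists_sb hC
  rw [lr_sb]
  by_contra hne
  have hdet : (cols x y).det ≠ 0 := fun h0 => hne (by rw [h0, mul_zero])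
  set w : J6 → ℝ := fun k => if k.2 = true then - ∑ j, x k.1 j * v j else ∑ j, y k.1 j * v j
    with hw
  have h1 : (cols x y) *ᵥ w = 0 := by
    funext i
    rw [Pi.zero_apply, ← h i, sb_mul]
    simp only [Matrix.mulVec, dotProduct, cols, Matrix.of_apply, hw]
    rw [Fintype.sum_prod_type]
    refine Finset.sum_congr rfl fun k _ => ?_
    simp only [Fintype.sum_bool, if_true, Bool.false_eq_true, if_false]
    ring
  have h2 : w = 0 := Matrix.eq_zero_of_mulVec_eq_zero hdet h1
  have hx : ∀ k, ∑ j, x k j * v j = 0 := by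
    intro k
    have := congrFun h2 (k, true)
    simp only [hw, if_true, Pi.zero_apply] at this
    linarith
  have hy : ∀ k, ∑ j, y k j * v j = 0 := by
    intro k
    have := congrFun h2 (k, false)
    simpa [hw] using this
  have h3 : (cols x y).transpose *ᵥ v = 0 := by
    funext k
    obtain ⟨k, s⟩ := k
    rw [cols_transpose]
    cases s
    · simpa using hx k
    · simpa using hy k
  exact hv (Matrix.eq_zero_of_mulVec_eq_zero (by rwa [Matrix.det_transpose]) h3)

theorem lr_add₂ (A B B' C : Rm) : lr A (B + B') C = lr A B C + lr A B' C := by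
  rw [← lr_swap₁, lr_add, lr_swap₁ A B, lr_swap₁ A B']

theorem lr_add₃ (A B C C' : Rm) : lr A B (C + C') = lr A B C + lr A B C' := by
  rw [← lr_swap₂, lr_add₂, lr_swap₂ A B C, lr_swap₂ A B C']

theorem lr_smul₂ (t : ℝ) (A B C : Rm) : lr A (t • B) C = t * lr A B C := by
  rw [← lr_swap₁, lr_smul, lr_swap₁ A B]

theorem lr_smul₃ (t : ℝ) (A B C : Rm) : lr A B (t • C) = t * lr A B C := by
  rw [← lr_swap₂, lr_smul₂, lr_swap₂ A B C]

/-- three skew matrices with a common kernel vector -/
theorem lr_ker₃ {A B C : Rm} (hA : ∀ i j, A j i = - A i j) (hB : ∀ i j, B j i = - B i j)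
    (hC : ∀ i j, C j i = - C i j) {v : J6 → ℝ} (hv : v ≠ 0) (h₁ : ∀ i, ∑ j, A i j * v j = 0)
    (h₂ : ∀ i, ∑ j, B i j * v j = 0) (h₃ : ∀ i, ∑ j, C i j * v j = 0) : lr A B C = 0 := by
  have hs : ∀ X Y : Rm, (∀ i j, X j i = - X i j) → (∀ i j, Y j i = - Y i j) →
      ∀ i j, (X + Y) j i = - (X + Y) i j := by
    intro X Y hX hY i j
    simp only [Pi.add_apply, hX i j, hY i j]
    ring
  have hk : ∀ X Y : Rm, (∀ i, ∑ j, X i j * v j = 0) → (∀ i, ∑ j, Y i j * v j = 0) →
      ∀ i, ∑ j, (X + Y) i j * v j = 0 := by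
    intro X Y hX hY i
    simp only [Pi.add_apply, add_mul, Finset.sum_add_distrib, hX i, hY i, add_zero]
  have e1 := lr_ker (hs _ _ (hs _ _ hA hB) hC) hv (hk _ _ (hk _ _ h₁ h₂) h₃)
  have e2 := lr_ker (hs _ _ hA hB) hv (hk _ _ h₁ h₂)
  have e3 := lr_ker (hs _ _ hA hC) hv (hk _ _ h₁ h₃)
  have e4 := lr_ker (hs _ _ hB hC) hv (hk _ _ h₂ h₃)
  have e5 := lr_ker hA hv h₁
  have e6 := lr_ker hB hv h₂
  have e7 := lr_ker hC hv h₃
  simp only [lr_add, lr_add₂, lr_add₃] at e1 e2 e3 e4
  have f1 : lr A C B = lr A B C := lr_swap₂ _ _ _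
  have f2 : lr B A C = lr A B C := lr_swap₁ _ _ _
  have f3 : lr B C A = lr A B C := by rw [lr_swap₂, f2]
  have f4 : lr C A B = lr A B C := by rw [lr_swap₁, f1]
  have f5 : lr C B A = lr A B C := by rw [lr_swap₂, f4]
  linarith

/-- the quadratic form of a family of skew matrices -/
noncomputable def Wf {K : ℕ} (A : Fin K → Rm) (B C : Rm) : ℝ :=
  6 * (∑ k, ∑ l, lr (A k) (A l) B * lr (A k) (A l) C) -
    (∑ k, lr (A k) (A k) B) * ∑ k, lr (A k) (A k) C

theorem lr_sum {ι : Type} [Fintype ι] (A : ι → Rm) (B C : Rm) :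
    lr (∑ k, A k) B C = ∑ k, lr (A k) B C := by
  classical
  have h : ∀ s : Finset ι, lr (∑ k ∈ s, A k) B C = ∑ k ∈ s, lr (A k) B C := by
    intro s
    induction s using Finset.induction_on with
    | empty =>
      simp only [Finset.sum_empty]
      have := lr_smul 0 (0 : Rm) B C
      simpa using this
    | insert a s ha ih => rw [Finset.sum_insert ha, Finset.sum_insert ha, lr_add, ih]
  exact h univ

/-- The quadratic form is nonnegative on degenerate matrices. -/
theorem Wf_nonneg {K : ℕ} {A : Fin K → Rm} (hA : ∀ k i j, A k j i = - A k i j) {B : Rm}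
    (hB : lr B B B = 0) : 0 ≤ Wf A B B := by
  set B' : Rm := fun i j => B i j - B j i with hB'
  have hs : ∀ i j, B' j i = - B' i j := fun i j => by simp only [hB']; ring
  have h3 : ∀ X Y, lr X Y B' = 2 * lr X Y B := by
    intro X Y
    have e1 : lr X Y B' = lr B' X Y := by rw [lr_swap₂, lr_swap₁]
    have e2 : lr X Y B = lr B X Y := by rw [lr_swap₂, lr_swap₁]
    rw [e1, e2]
    exact lr_skew B X Y
  have hB0 : lr B' B' B' = 0 := by
    have e : lr B' B' B' = 8 * lr B B B := by
      rw [h3]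
      have e1 : lr B' B' B = lr B B' B' := by rw [lr_swap₂, lr_swap₁]
      rw [e1, h3]
      have e2 : lr B B' B = lr B B B' := lr_swap₂ _ _ _
      rw [e2, h3]
      ring
    rw [e, hB, mul_zero]
  obtain ⟨v, hv, hk⟩ := exists_ker hs hB0
  have h := tr_sq (K := K) (ι := J6) (Matrix.of fun k l => lr (A k) (A l) B)
    (Matrix.of fun i k => ∑ j, A k i j * v j) (c := 6) (by simp) (by
      intro x hx
      set X : Rm := ∑ k, x k • A k with hX
      have hXs : ∀ i j, X j i = - X i j := by
        intro i j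
        simp only [hX, Finset.sum_apply, Pi.smul_apply, smul_eq_mul, ← Finset.sum_neg_distrib]
        refine Finset.sum_congr rfl fun k _ => ?_
        rw [hA]
        ring
      have hXk : ∀ i, ∑ j, X i j * v j = 0 := by
        intro i
        have h1 := congrFun hx i
        simp only [Matrix.mulVec, dotProduct, Matrix.of_apply, Pi.zero_apply] at h1
        rw [← h1]
        simp only [hX, Finset.sum_apply, Pi.smul_apply, smul_eq_mul, Finset.sum_mul]
        rw [Finset.sum_comm]
        refine Finset.sum_congr rfl fun k _ => Finset.sum_congr rfl fun j _ => ?_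
        ring
      have h1 : lr X X B' = 0 := lr_ker₃ hXs hXs hs hv hXk hXk hk
      rw [h3] at h1
      have h2 : lr X X B = 0 := by linarith
      have e0 : ∀ Y, lr X Y B = ∑ k, x k * lr (A k) Y B := by
        intro Y
        rw [hX, lr_sum]
        exact Finset.sum_congr rfl fun k _ => lr_smul _ _ _ _
      rw [← h2, e0]
      simp only [dotProduct, Matrix.mulVec, Matrix.of_apply]
      refine Finset.sum_congr rfl fun k _ => ?_
      congr 1
      rw [← lr_swap₁, e0]
      refine Finset.sum_congr rfl fun l _ => ?_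
      rw [lr_swap₁ (A k) (A l), mul_comm])
  simp only [Matrix.trace, Matrix.diag_apply, Matrix.of_apply] at h
  unfold Wf
  simp only [← sq]
  push_cast at h
  linarith

/-- the quadratic form as a bilinear map -/
noncomputable def WL {K : ℕ} (A : Fin K → Rm) : Rm →ₗ[ℝ] Rm →ₗ[ℝ] ℝ :=
  LinearMap.mk₂ ℝ (Wf A)
    (by
      intro B B' C
      simp only [Wf, lr_add₃, add_mul, mul_add, Finset.sum_add_distrib]
      ring)
    (by
      intro t B C
      simp only [Wf, lr_smul₃, smul_eq_mul, mul_assoc, ← Finset.mul_sum]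
      ring)
    (by
      intro B C C'
      simp only [Wf, lr_add₃, mul_add, Finset.sum_add_distrib]
      ring)
    (by
      intro t B C
      simp only [Wf, lr_smul₃, smul_eq_mul, mul_left_comm _ t, ← Finset.mul_sum]
      ring)

/-- the polarised cubic form -/
noncomputable def QL (X : Rm) : Rm →ₗ[ℝ] Rm →ₗ[ℝ] ℝ :=
  LinearMap.mk₂ ℝ (fun B C => 3 * lr X B C)
    (by intro B B' C; rw [lr_add₂]; ring)
    (by intro t B C; rw [lr_smul₂, smul_eq_mul]; ring)
    (by intro B C C'; rw [lr_add₃]; ring)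
    (by intro t B C; rw [lr_smul₃, smul_eq_mul]; ring)

/-- The main inequality: `∑ W (B j) ≥ 0` if `∑ B j ∧ B j = 0`. -/
theorem Wf_sum {K : ℕ} {A : Fin K → Rm} (hA : ∀ k i j, A k j i = - A k i j) {n : ℕ}
    (B : Fin n → Rm) (hB : ∀ X, ∑ j, lr X (B j) (B j) = 0) : 0 ≤ ∑ j, Wf A (B j) (B j) := by
  have h := cub_quad (WL A) ?_ (fun B => lr B B B) (fun X Y => 3 * lr X X Y) QL ?_ ?_ ?_ B ?_
  · exact h
  · intro X Y
    show Wf A X Y = Wf A Y X
    unfold Wf
    congr 1
    · congr 1
      refine Finset.sum_congr rfl fun k _ => Finset.sum_congr rfl fun l _ => ?_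
      ring
    · ring
  · intro X Y s
    show lr (X + s • Y) (X + s • Y) (X + s • Y) = lr X X X + s * (3 * lr X X Y) +
      s ^ 2 * (3 * lr X Y Y) + s ^ 3 * lr Y Y Y
    simp only [lr_add, lr_add₂, lr_add₃, lr_smul, lr_smul₂, lr_smul₃]
    have f1 : lr X Y X = lr X X Y := lr_swap₂ _ _ _
    have f2 : lr Y X X = lr X X Y := by rw [lr_swap₁, f1]
    have f3 : lr Y X Y = lr X Y Y := lr_swap₁ _ _ _
    have f4 : lr Y Y X = lr X Y Y := by rw [lr_swap₂, f3]
    rw [f1, f2, f3, f4]
    ring
  · intro X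
    rfl
  · intro X hX
    exact Wf_nonneg hA hX
  · intro X
    show ∑ j, 3 * lr X (B j) (B j) = 0
    rw [← Finset.mul_sum, hB, mul_zero]

end Pool.Agent.U486.SN
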