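import Pool.Agent.U486.SN.Ann
import Pool.Agent.U486.HF.GenA

/-!
# Any number of skew forms in dimension six
-/

set_option autoImplicit false

namespace Pool.Agent.U486.SN
open Finset Pool.Agent.Y195.HF Pool.Agent.W666.GB Pool.Agent.U486.HF
open Pool.Agent.W669.HD hiding phi kap

theorem mul6 {R : Type*} [CommRing R] (a b c d e f : R) :
    a * b * (c * d) * (e * f) = a * c * (b * d) * (e * f) := by ring

theorem lam_three (A B C : Rm) : lam ![cm A, cm B, cm C] = ((lr A B C : ℝ) : ℂ) := by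
  unfold lam lr
  push_cast
  refine Finset.sum_congr rfl fun σ _ => ?_
  rw [Fin.prod_univ_three]
  simp only [Matrix.cons_val_zero, Matrix.cons_val_one, Matrix.cons_val_two, Matrix.head_cons,
    Matrix.tail_cons, cm]

theorem el_real {P : T4 3} {n : ℕ} {ν : Fin n → Rm} (hPν : ∀ i j k l, P i j k l = ∑ a, ν a i j * ν a k l) :
   eL (cx P) = ∑ a, ff false false (cm (ν a)) * ff true true (cm (ν a)) := by
    have h1 : cx P = fun i j k l => ∑ a, cm (ν a) i j * cm (ν a) k l := by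
      funext i j k l
      simp only [cx, cm, hPν i j k l]
      push_cast
      rfl
    rw [h1, eL_sum (fun a i j k l => cm (ν a) i j * cm (ν a) k l)]
    exact Finset.sum_congr rfl fun a _ => eL_mul _ _

theorem LF_three (A₁ A₂ A₃ A₄ N : Rm) : LF 3 (zval (ff false false (cm A₁) *
      ff false false (cm A₂) * (ff true true (cm A₃) * ff true true (cm A₄)) * (ff false false (cm N) * ff true true (cm N)))) = ((lr A₁ A₂ N * lr A₃ A₄ N : ℝ) : ℂ) := by
  have h1 := LF_prod ![cm A₁, cm A₂, cm N] ![cm A₃, cm A₄, cm N]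
  rw [lam_three, lam_three, Fin.prod_univ_three] at h1
  rw [mul6, Complex.ofReal_mul, ← h1]
  rfl

theorem val4 {P : T4 3} {n : ℕ} {ν : Fin n → Rm} (hPν : ∀ i j k l, P i j k l = ∑ a, ν a i j * ν a k l) (A₁ A₂ A₃ A₄ : Rm) : el' (eL (cx P)) (ff false false (cm A₁) *
      ff false false (cm A₂) * (ff true true (cm A₃) * ff true true (cm A₄))) =
      ((∑ a, lr A₁ A₂ (ν a) * lr A₃ A₄ (ν a) : ℝ) : ℂ) := by
  rw [el'_apply, el_real hPν, Finset.mul_sum, map_sum, map_sum, Complex.ofReal_sum]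
  exact Finset.sum_congr rfl fun a _ => LF_three _ _ _ _ _


/-- the family of squares of an admissible tensor satisfies the Bianchi identity -/
theorem bianchi_fam {P : T4 3} (hb : ∀ i j k l, P i j k l + P j k i l + P k i j l = 0) {n : ℕ}
    {ν : Fin n → Rm} (hν : ∀ i j k l, P i j k l = ∑ a, ν a i j * ν a k l) (X : Rm) :
    ∑ a, lr X (ν a) (ν a) = 0 := by
  set g : Equiv.Perm J6 → ℝ := fun σ => ((Equiv.Perm.sign σ : ℤ) : ℝ) *
    (X (σ (0, false)) (σ (0, true)) *
      P (σ (1, false)) (σ (1, true)) (σ (2, false)) (σ (2, true))) with hg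
  have h1 : ∑ a, lr X (ν a) (ν a) = ∑ σ, g σ := by
    unfold lr
    rw [Finset.sum_comm]
    refine Finset.sum_congr rfl fun σ _ => ?_
    simp only [hg, hν, Finset.mul_sum]
    refine Finset.sum_congr rfl fun a _ => ?_
    ring
  set π : Equiv.Perm J6 := Equiv.swap ((1 : Fin 3), false) (1, true) *
    Equiv.swap ((1 : Fin 3), true) (2, false) with hπ
  have hs : Equiv.Perm.sign π = 1 := by decide
  have p0 : π (0, false) = (0, false) := by decide
  have p1 : π (0, true) = (0, true) := by decide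
  have p2 : π (1, false) = (1, true) := by decide
  have p3 : π (1, true) = (2, false) := by decide
  have p4 : π (2, false) = (1, false) := by decide
  have p5 : π (2, true) = (2, true) := by decide
  have h2 : ∑ σ, g σ = ∑ σ, g (σ * π) := (Equiv.sum_comp (Equiv.mulRight π) g).symm
  have h3 : ∑ σ, g σ = ∑ σ, g (σ * π * π) := by
    rw [h2]
    exact (Equiv.sum_comp (Equiv.mulRight π) fun σ => g (σ * π)).symm
  have h4 : ∑ σ, g σ + ∑ σ, g (σ * π) + ∑ σ, g (σ * π * π) = 0 := by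
    rw [← Finset.sum_add_distrib, ← Finset.sum_add_distrib]
    refine Finset.sum_eq_zero fun σ _ => ?_
    simp only [hg, map_mul, hs, mul_one, Equiv.Perm.mul_apply, p0, p1, p2, p3, p4, p5]
    have := hb (σ (1, false)) (σ (1, true)) (σ (2, false)) (σ (2, true))
    linear_combination ((Equiv.Perm.sign σ : ℤ) : ℝ) * X (σ (0, false)) (σ (0, true)) * this
  rw [h1]
  linarith


theorem sq22 {R : Type*} [CommRing R] (a b : R) : a ^ 2 * b ^ 2 = a * a * (b * b) := by ring

theorem quart4 {P : T4 3} (hP : Adm P) {n : ℕ} {ν : Fin n → Rm}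
    (hPν : ∀ i j k l, P i j k l = ∑ a, ν a i j * ν a k l) {A B : Rm}
    (hA : ∀ i j, A j i = - A i j) (hB : ∀ i j, B j i = - B i j) :
    16 * el' (eL (cx P)) (qi (cm A) * qi (cm B)) =
      ((∑ a, (36 * lr A B (ν a) ^ 2 - 6 * (lr A A (ν a) * lr B B (ν a))) : ℝ) : ℂ) := by
  have hA' : ∀ i j, cm A j i = - cm A i j := fun i j => by
    simp only [cm, hA i j, Complex.ofReal_neg]
  have hB' : ∀ i j, cm B j i = - cm B i j := fun i j => by
    simp only [cm, hB i j, Complex.ofReal_neg]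
  rw [quartic hA' hB' hP.inv, sq22, sq22, val4 hPν, val4 hPν, val4 hPν]
  rw [← Complex.ofReal_add, ← Complex.ofReal_ofNat, ← Complex.ofReal_ofNat, ← Complex.ofReal_mul,
    ← Complex.ofReal_mul, ← Complex.ofReal_sub]
  congr 1
  rw [← Finset.sum_add_distrib, Finset.mul_sum, Finset.mul_sum, ← Finset.sum_sub_distrib]
  refine Finset.sum_congr rfl fun a _ => ?_
  ring

theorem sum3 {K n : ℕ} (A : Fin K → Rm) (ν : Fin n → Rm) :
    ∑ k, ∑ l, ∑ a, (36 * lr (A k) (A l) (ν a) ^ 2 -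
      6 * (lr (A k) (A k) (ν a) * lr (A l) (A l) (ν a))) = 6 * ∑ a, Wf A (ν a) (ν a) := by
  have e5 : ∀ f : Fin K → Fin K → Fin n → ℝ,
      ∑ k, ∑ l, ∑ a, f k l a = ∑ a, ∑ k, ∑ l, f k l a := by
    intro f
    have : ∀ k, ∑ l, ∑ a, f k l a = ∑ a, ∑ l, f k l a := fun k => Finset.sum_comm
    simp only [this]
    exact Finset.sum_comm
  rw [e5, Finset.mul_sum]
  refine Finset.sum_congr rfl fun a _ => ?_
  unfold Wf
  rw [Finset.sum_mul_sum]
  simp only [Finset.sum_sub_distrib, ← Finset.mul_sum, sq]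
  ring

/-- squares of sums of the invariants of any number of skew forms in dimension six -/
theorem any_sq {P : T4 3} (hP : Adm P) {K : ℕ} {A : Fin K → Rm}
    (hA : ∀ k i j, A k j i = - A k i j) :
    0 ≤ (el' (eL (cx P)) ((∑ k, qi (cm (A k))) ^ 2)).re := by
  obtain ⟨n, ν, hν, hPν⟩ := hP.sq
  have hkey := Wf_sum hA ν (bianchi_fam hP.bia hPν)
  have h3 : 16 * el' (eL (cx P)) ((∑ k, qi (cm (A k))) ^ 2) =
      ((6 * ∑ a, Wf A (ν a) (ν a) : ℝ) : ℂ) := by
    rw [← sum3, Complex.ofReal_sum, pow_two, Finset.sum_mul_sum, map_sum, Finset.mul_sum]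
    refine Finset.sum_congr rfl fun k _ => ?_
    rw [Complex.ofReal_sum, map_sum, Finset.mul_sum]
    refine Finset.sum_congr rfl fun l _ => ?_
    rw [quart4 hP hPν (hA k) (hA l)]
  have h5 := congrArg Complex.re h3
  rw [Complex.ofReal_re] at h5
  simp only [Complex.mul_re, Complex.re_ofNat, Complex.im_ofNat, zero_mul, sub_zero] at h5
  linarith


theorem cube_sum {R : Type*} [CommRing R] [Algebra ℂ R] (x q : R) :
    (x + (2 : ℂ) • q) ^ 3 = x ^ 3 + ((2 : ℂ) • q) ^ 3 + (6 : ℂ) • (x * x * q) +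
      (12 : ℂ) • (x * q ^ 2) := by
  simp only [Algebra.smul_def, map_ofNat]
  ring

theorem cube_cmp {R : Type*} [CommRing R] [Algebra ℂ R] (x q : R) :
    (x + (2 : ℂ) • q) ^ 3 = x ^ 3 + (6 : ℂ) • (x * x * q) +
      (4 : ℂ) • (((2 : ℂ) • q + (3 : ℂ) • x) * q ^ 2) := by
  simp only [Algebra.smul_def, map_ofNat]
  ring

theorem LR_csmul (r : ℝ) (x : Zc (I2 3 → ℂ)) : LR 3 ((r : ℂ) • x) = r * LR 3 x := by
  rw [Complex.coe_smul, map_smul, smul_eq_mul]

theorem LR_cube (x q : Zc (I2 3 → ℂ)) : LR 3 ((x + (2 : ℂ) • q) ^ 3) =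
    LR 3 (x ^ 3) + LR 3 (((2 : ℂ) • q) ^ 3) + 6 * LR 3 (x * x * q) + 12 * LR 3 (x * q ^ 2) := by
  have h6 := LR_csmul 6 (x * x * q)
  have h12 := LR_csmul 12 (x * q ^ 2)
  rw [Complex.ofReal_ofNat] at h6 h12
  rw [cube_sum, map_add, map_add, map_add, h6, h12]

theorem LR_cmp (x q : Zc (I2 3 → ℂ)) : LR 3 ((x + (2 : ℂ) • q) ^ 3) =
    LR 3 (x ^ 3) + 6 * LR 3 (x * x * q) +
      4 * LR 3 (((2 : ℂ) • q + (3 : ℂ) • x) * q ^ 2) := by
  have h6 := LR_csmul 6 (x * x * q)
  have h4 := LR_csmul 4 (((2 : ℂ) • q + (3 : ℂ) • x) * q ^ 2)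
  rw [Complex.ofReal_ofNat] at h6 h4
  rw [cube_cmp, map_add, map_add, h6, h4]

/-- the first mixed term -/
theorem any_one {D P : T4 3} (hD : Adm D) (hP : Adm P) {K : ℕ} {A : Fin K → Rm}
    (hA : ∀ k i j, A k j i = - A k i j) :
    0 ≤ LR 3 (eL (cx D) * eL (cx P) * ∑ k, qi (cm (A k))) := by
  have hA' : ∀ k i j, cm (A k) j i = - cm (A k) i j := fun k i j => by
    simp only [cm, hA k i j, Complex.ofReal_neg]
  have h := pos_one hA' (fun k => cj_cm _) (hD.inv.mul hP.inv) (cone_mul hD.mem hP.mem)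
    (by norm_num)
  rw [el'_apply, ← LR_apply, pow_one] at h
  rw [mul_comm]
  exact h

/-- the second mixed term -/
theorem any_two {P : T4 3} (hP : Adm P) {K : ℕ} {A : Fin K → Rm}
    (hA : ∀ k i j, A k j i = - A k i j) :
    0 ≤ LR 3 (eL (cx P) * (∑ k, qi (cm (A k))) ^ 2) := by
  have h := any_sq hP hA
  rw [el'_apply, ← LR_apply] at h
  rw [mul_comm]
  exact h

/-- superadditivity in dimension six for any number of skew forms -/
theorem gm_any {P C : T4 3} (hP : Adm P) {K : ℕ} {A : Fin K → Rm}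
    (hA : ∀ k i j, A k j i = - A k i j)
    (hC : eL (cx C) = (2 : ℂ) • ∑ k, qi (cm (A k))) :
    gm (fun _ : Fin 3 => P) + gm (fun _ : Fin 3 => C) ≤ gm (fun _ : Fin 3 =>
      (fun i j k l => P i j k l + C i j k l : T4 3)) := by
  have hsum : eL (cx (fun i j k l => P i j k l + C i j k l : T4 3)) =
      eL (cx P) + eL (cx C) := by
    rw [← eL_add (cx P)]
    congr 1
    funext i j k l
    simp only [cx]
    push_cast
    rfl
  have k1 := any_one hP hP hA
  have k2 := any_two hP hA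
  rw [gm_LR, gm_LR, gm_LR, hsum, hC, LR_cube]
  linarith

/-- the comparison theorem: `gm F ≤ gm (F + C)` if `C + 3 F` is admissible -/
theorem gm_compare {F P C : T4 3} (hF : Adm F) (hP : Adm P) {K : ℕ} {A : Fin K → Rm}
    (hA : ∀ k i j, A k j i = - A k i j)
    (hC : eL (cx C) = (2 : ℂ) • ∑ k, qi (cm (A k)))
    (hPC : ∀ i j k l, P i j k l = C i j k l + 3 * F i j k l) :
    gm (fun _ : Fin 3 => F) ≤ gm (fun _ : Fin 3 =>
      (fun i j k l => F i j k l + C i j k l : T4 3)) := by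
  have hsum : eL (cx (fun i j k l => F i j k l + C i j k l : T4 3)) =
      eL (cx F) + eL (cx C) := by
    rw [← eL_add (cx F)]
    congr 1
    funext i j k l
    simp only [cx]
    push_cast
    rfl
  have hPs : eL (cx P) = eL (cx C) + (3 : ℂ) • eL (cx F) := by
    rw [← eL_smul, ← eL_add]
    congr 1
    funext i j k l
    simp only [cx, hPC i j k l]
    push_cast
    rfl
  have k1 := any_one hF hF hA
  have k2 := any_two hP hA
  rw [hPs, hC] at k2
  rw [gm_LR, gm_LR, hsum, hC, LR_cmp]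
  linarith

end Pool.Agent.U486.SN
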