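import Pool.Agent.U486.SN.Vec

/-!
# Pinching of strongly positive curvature in dimension six
-/

set_option autoImplicit false

namespace Pool.Agent.U486.SN

open Finset Pool.Agent.Y195.HF Pool.Agent.W666.GB Pool.Agent.U486.HF Pool.Agent.R65.HP
open Pool.Agent.W669.HD hiding phi kap

variable {V : Type} [NormedAddCommGroup V] [InnerProductSpace ℝ V]

/-- The comparison hypothesis in dimension six: `F` is an algebraic curvature tensor with
nonnegative curvature operator, the curvature operator of `R + 2 F` is nonnegative, and `R - F` is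
strongly nonnegative. -/
def ComparesSix (F R : V → V → V → V → ℝ) : Prop :=
  AlgCurv F ∧ OpNonneg F ∧ OpNonneg (fun x y z w => R x y z w + 2 * F x y z w) ∧
    StrongNonneg (addT R (negT F))

/-- The case of constant curvature: the curvature operator of `R` is at least `-2 κ` and
`R - κ R₀` is strongly nonnegative. -/
def PinchedSix (κ : ℝ) (R : V → V → V → V → ℝ) : Prop :=
  OpNonneg (fun x y z w => R x y z w + 2 * (κ * unitT x y z w)) ∧
    StrongNonneg (addT R (negT fun x y z w => κ * unitT x y z w))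

/-- `R` is the sum of a form which is nonnegative on all bivectors, of `κ R₀`, and of the curvature
tensors of any number of skew forms `A s` of norm at most `a s`, where `∑ (a s)² ≤ 3 κ`. -/
def ManySkewSix (κ : ℝ) (R : V → V → V → V → ℝ) : Prop :=
  ∃ (n : ℕ) (A : Fin n → V → V → ℝ) (a : Fin n → ℝ), (∀ s, SkewForm (A s)) ∧ (∀ s, 0 ≤ a s) ∧
    (∀ s x y, |A s x y| ≤ a s * ‖x‖ * ‖y‖) ∧ ∑ s, a s ^ 2 ≤ 3 * κ ∧
    OpNonneg (fun x y z w => R x y z w - κ * unitT x y z w - ∑ s, skewCurv (A s) x y z w)

theorem compares_six (e : OrthonormalBasis (Fin 3 × Bool) ℝ V) {R F : V → V → V → V → ℝ}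
    (hR : AlgCurv R) (h : ComparesSix F R) : gbc e F ≤ gbc e R ∧ 0 ≤ gbc e F :=
  ⟨compare_pos e h.1 h.2.1 hR h.2.2.1 h.2.2.2, op_gbc_nonneg e h.1 h.2.1⟩

theorem pinched_six (e : OrthonormalBasis (Fin 3 × Bool) ℝ V) {R : V → V → V → V → ℝ}
    (hR : AlgCurv R) {κ : ℝ} (hκ : 0 ≤ κ) (h : PinchedSix κ R) : roundGB 3 κ ≤ gbc e R := by
  rw [← gbc_unit e κ]
  exact compare_pos e (unit_curv κ) (unit_op e hκ) hR h.1 h.2

theorem many_pinched_six (e : OrthonormalBasis (Fin 3 × Bool) ℝ V) {R : V → V → V → V → ℝ}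
    {κ : ℝ} (h : ManySkewSix κ R) : PinchedSix κ R := by
  classical
  obtain ⟨n, A, a, hA, ha, hb, hs, hN⟩ := h
  have hsk : ∀ s, OpNonneg (fun x y z w => a s ^ 2 * unitT x y z w + skewCurv (A s) x y z w) := by
    intro s
    have h1 := op_add' (skew_op e (hA s) (ha s) (hb s)) (op_sq (A := A s) (c := 2) (by norm_num))
    have h2 : (fun x y z w => a s ^ 2 * unitT x y z w + skewCurv (A s) x y z w) =
        fun x y z w => (a s ^ 2 * unitT x y z w + (A s x z * A s y w - A s x w * A s y z)) +
          2 * (A s x y * A s z w) := by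
      funext x y z w
      simp only [skewCurv]
      ring
    rw [h2]
    exact h1
  constructor
  · have h1 : OpNonneg (fun x y z w : V => (3 * κ - ∑ s, a s ^ 2) * unitT x y z w) :=
      unit_op e (by linarith)
    have h2 := op_add' (op_add' hN h1) (op_sum univ _ hsk)
    have h3 : (fun x y z w => R x y z w + 2 * (κ * unitT x y z w)) =
        fun x y z w => (R x y z w - κ * unitT x y z w - ∑ s, skewCurv (A s) x y z w) +
          (3 * κ - ∑ s, a s ^ 2) * unitT x y z w +
          ∑ s, (a s ^ 2 * unitT x y z w + skewCurv (A s) x y z w) := by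
      funext x y z w
      rw [Finset.sum_add_distrib, ← Finset.sum_mul]
      ring
    rw [h3]
    exact h2
  · refine ⟨negT _, Pool.Agent.R65.HP.neg_form (form_sum univ _ fun s => wedge_form (hA s)), ?_⟩
    have h1 := op_add' hN (op_sum univ _ fun s => op_sq (A := A s) (c := 3) (by norm_num))
    have h2 : (addT (addT R (negT fun x y z w => κ * unitT x y z w)) (negT (fun x y z w =>
        ∑ s, -(A s x y * A s z w - A s x z * A s y w + A s x w * A s y z)))) =
        fun x y z w => (R x y z w - κ * unitT x y z w - ∑ s, skewCurv (A s) x y z w) +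
          ∑ s, 3 * (A s x y * A s z w) := by
      funext x y z w
      simp only [negT, addT, skewCurv]
      have h3 : ∑ s, (2 * (A s x y * A s z w) + A s x z * A s y w - A s x w * A s y z) +
          ∑ s, (A s x y * A s z w - A s x z * A s y w + A s x w * A s y z) =
          ∑ s, 3 * (A s x y * A s z w) := by
        rw [← Finset.sum_add_distrib]
        exact Finset.sum_congr rfl fun s _ => by ring
      rw [← h3, Finset.sum_neg_distrib]
      ring
    rw [h2]
    exact h1

theorem field_six {M : Type} [MeasurableSpace M] (μ : MeasureTheory.Measure M)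
    (K : CurvField 3 M) (h : ∀ p, ∃ F, ComparesSix F (K.R p)) : 0 ≤ ∫ p, K.gb p ∂μ := by
  refine MeasureTheory.integral_nonneg fun p => ?_
  obtain ⟨F, hF⟩ := h p
  have h1 := compares_six (K.e p) (K.curv p) hF
  exact h1.2.trans h1.1

theorem field_six' {M : Type} [MeasurableSpace M] (μ : MeasureTheory.Measure M)
    (K : CurvField 3 M) (κ : M → ℝ) (hμ : μ ≠ 0) (hi : MeasureTheory.Integrable K.gb μ)
    (h : ∀ p, 0 < κ p ∧ PinchedSix (κ p) (K.R p)) : 0 < ∫ p, K.gb p ∂μ := by
  have h0 : ∀ p, 0 < K.gb p := fun p =>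
    (Pool.Agent.W666.GB.roundGB_pos (m := 3) (h p).1).trans_le (pinched_six (K.e p) (K.curv p) (h p).1.le (h p).2)
  rw [MeasureTheory.integral_pos_iff_support_of_nonneg (fun p => (h0 p).le) hi]
  have h1 : Function.support K.gb = Set.univ := by
    ext p
    simp [(h0 p).ne']
  rw [h1]
  exact pos_iff_ne_zero.mpr (by simpa using hμ)

end Pool.Agent.U486.SN
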