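import Pool.Agent.U486.SN.Fin
import Pool.Agent.Y195.HF.Posi

/-!
# The Hopf–Singer sign in dimension six: strongly nonpositive curvature
-/

set_option autoImplicit false

namespace Pool.Agent.U486.SN

open Finset Pool.Agent.Y195.HF Pool.Agent.W666.GB Pool.Agent.U486.HF Pool.Agent.R65.HP
open Pool.Agent.W669.HD hiding phi kap

variable {V : Type} [NormedAddCommGroup V] [InnerProductSpace ℝ V]

/-- Strongly nonpositive: the tensor becomes nonpositive on all bivectors after adding a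
`4`-form. -/
def StrongNonpos (R : V → V → V → V → ℝ) : Prop :=
  ∃ ω : V → V → V → V → ℝ, FourForm ω ∧ OpNonneg (negT (addT R ω))

/-- The comparison hypothesis in dimension six: `F` is an algebraic curvature tensor with
nonnegative curvature operator, the curvature operator of `R` is at most the one of `2 F`, and
`R + F` is strongly nonpositive. -/
def ComparesNegSix (F R : V → V → V → V → ℝ) : Prop :=
  AlgCurv F ∧ OpNonneg F ∧ OpNonneg (fun x y z w => 2 * F x y z w - R x y z w) ∧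
    StrongNonpos (addT R F)

/-- The case of constant curvature: the curvature operator of `R` is at most `2 κ` and
`R + κ R₀` is strongly nonpositive. -/
def PinchedNegSix (κ : ℝ) (R : V → V → V → V → ℝ) : Prop :=
  OpNonneg (fun x y z w => 2 * (κ * unitT x y z w) - R x y z w) ∧
    StrongNonpos (addT R fun x y z w => κ * unitT x y z w)

/-- `-R` is the sum of a form which is nonnegative on all bivectors, of `κ R₀`, and of the curvature
tensors of any number of skew forms `A s` of norm at most `a s`, where `∑ (a s)² ≤ 3 κ`. -/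
def ManySkewNegSix (κ : ℝ) (R : V → V → V → V → ℝ) : Prop :=
  ∃ (n : ℕ) (A : Fin n → V → V → ℝ) (a : Fin n → ℝ), (∀ s, SkewForm (A s)) ∧ (∀ s, 0 ≤ a s) ∧
    (∀ s x y, |A s x y| ≤ a s * ‖x‖ * ‖y‖) ∧ ∑ s, a s ^ 2 ≤ 3 * κ ∧
    OpNonneg (fun x y z w => -R x y z w - κ * unitT x y z w - ∑ s, skewCurv (A s) x y z w)

theorem strong_neg {R : V → V → V → V → ℝ} (h : StrongNonpos R) : StrongNonneg (negT R) := by
  obtain ⟨ω, hω, hn⟩ := h
  refine ⟨negT ω, Pool.Agent.R65.HP.neg_form hω, ?_⟩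
  have h1 : addT (negT R) (negT ω) = negT (addT R ω) := by
    funext x y z w
    simp only [addT, negT]
    ring
  rw [h1]
  exact hn

theorem neg3 (e : OrthonormalBasis (Fin 3 × Bool) ℝ V) (R : V → V → V → V → ℝ) :
    gbc e (negT R) = (-1) ^ 3 * gbc e R := by
  have h1 := Pool.Agent.Y195.HF.gbc_negT e R
  rw [← h1]
  ring

theorem compares_neg_six (e : OrthonormalBasis (Fin 3 × Bool) ℝ V) {R F : V → V → V → V → ℝ}
    (hR : AlgCurv R) (h : ComparesNegSix F R) :
    gbc e F ≤ (-1) ^ 3 * gbc e R ∧ 0 ≤ gbc e F := by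
  rw [← neg3]
  refine compares_six e (Pool.Agent.Y195.HF.neg_curv hR) ⟨h.1, h.2.1, ?_, ?_⟩
  · have h1 : (fun x y z w => negT R x y z w + 2 * F x y z w) =
        fun x y z w => 2 * F x y z w - R x y z w := by
      funext x y z w
      simp only [negT]
      ring
    rw [h1]
    exact h.2.2.1
  · have h1 : addT (negT R) (negT F) = negT (addT R F) := by
      funext x y z w
      simp only [addT, negT]
      ring
    rw [h1]
    exact strong_neg h.2.2.2

theorem pinched_neg_six (e : OrthonormalBasis (Fin 3 × Bool) ℝ V) {R : V → V → V → V → ℝ}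
    (hR : AlgCurv R) {κ : ℝ} (hκ : 0 ≤ κ) (h : PinchedNegSix κ R) :
    roundGB 3 κ ≤ (-1) ^ 3 * gbc e R := by
  rw [← gbc_unit e κ]
  exact (compares_neg_six e hR ⟨unit_curv κ, unit_op e hκ, h.1, h.2⟩).1

theorem many_pinched_neg_six (e : OrthonormalBasis (Fin 3 × Bool) ℝ V) {R : V → V → V → V → ℝ}
    (hR : AlgCurv R) {κ : ℝ} (hκ : 0 ≤ κ) (h : ManySkewNegSix κ R) :
    roundGB 3 κ ≤ (-1) ^ 3 * gbc e R := by
  rw [← neg3]
  exact pinched_six e (Pool.Agent.Y195.HF.neg_curv hR) hκ (many_pinched_six e h)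

theorem field_neg_six {M : Type} [MeasurableSpace M] (μ : MeasureTheory.Measure M)
    (K : CurvField 3 M) (h : ∀ p, ∃ F, ComparesNegSix F (K.R p)) :
    0 ≤ (-1) ^ 3 * ∫ p, K.gb p ∂μ := by
  rw [← MeasureTheory.integral_const_mul]
  refine MeasureTheory.integral_nonneg fun p => ?_
  obtain ⟨F, hF⟩ := h p
  have h1 := compares_neg_six (K.e p) (K.curv p) hF
  exact h1.2.trans h1.1

theorem field_neg_six' {M : Type} [MeasurableSpace M] (μ : MeasureTheory.Measure M)
    [MeasureTheory.IsFiniteMeasure μ] (K : CurvField 3 M) (κ : ℝ) (hκ : 0 ≤ κ)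
    (hi : MeasureTheory.Integrable K.gb μ) (h : ∀ p, PinchedNegSix κ (K.R p)) :
    roundGB 3 κ * μ.real Set.univ ≤ (-1) ^ 3 * ∫ p, K.gb p ∂μ := by
  rw [← MeasureTheory.integral_const_mul]
  have h1 : ∫ _, roundGB 3 κ ∂μ ≤ ∫ p, (-1) ^ 3 * K.gb p ∂μ :=
    MeasureTheory.integral_mono (MeasureTheory.integrable_const _) (hi.const_mul _)
      fun p => pinched_neg_six (K.e p) (K.curv p) hκ (h p)
  rw [MeasureTheory.integral_const, smul_eq_mul] at h1
  linarith

/-- superadditivity -/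
theorem super_neg (e : OrthonormalBasis (Fin 3 × Bool) ℝ V) {R₁ R₂ : V → V → V → V → ℝ}
    (h₁ : AlgCurv R₁) (hn : OpNonneg (negT R₁)) (h₂ : AlgCurv R₂) (hs : StrongNonpos R₂) :
    (-1) ^ 3 * gbc e R₁ + (-1) ^ 3 * gbc e R₂ ≤ (-1) ^ 3 * gbc e (addT R₁ R₂) := by
  rw [← neg3, ← neg3, ← neg3]
  have h3 := super_pos e (Pool.Agent.Y195.HF.neg_curv h₁) hn (Pool.Agent.Y195.HF.neg_curv h₂)
    (strong_neg hs)
  have h4 : addT (negT R₁) (negT R₂) = negT (addT R₁ R₂) := by
    funext x y z w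
    simp only [addT, negT]
    ring
  rwa [h4] at h3

theorem iff_neg (e : OrthonormalBasis (Fin 3 × Bool) ℝ V) {R₂ : V → V → V → V → ℝ}
    (h₂ : AlgCurv R₂) (hs : StrongNonpos R₂) :
    (∀ R₁ : V → V → V → V → ℝ, AlgCurv R₁ → OpNonneg (negT R₁) →
      0 ≤ (-1) ^ 3 * gbc e (addT R₁ R₂)) ↔ 0 ≤ (-1) ^ 3 * gbc e R₂ := by
  constructor
  · intro h
    have h0 : AlgCurv (fun _ _ _ _ : V => (0 : ℝ)) :=
      ⟨by simp, by simp, by simp, by simp, by simp⟩
    have h1 := h _ h0 (fun n x y => by simp [negT])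
    have h3 : addT (fun _ _ _ _ : V => (0 : ℝ)) R₂ = R₂ := by
      funext x y z w
      simp [addT]
    rwa [h3] at h1
  · intro h R₁ h₁ hn
    have h1 := super_neg e h₁ hn h₂ hs
    have h3 := op_gbc_nonneg e (Pool.Agent.Y195.HF.neg_curv h₁) hn
    rw [neg3] at h3
    linarith

theorem field_super_neg {M : Type} [MeasurableSpace M] (μ : MeasureTheory.Measure M)
    (K : CurvField 3 M) (h : ∀ p, ∃ R₁ R₂, K.R p = addT R₁ R₂ ∧ AlgCurv R₁ ∧ OpNonneg (negT R₁) ∧
      AlgCurv R₂ ∧ StrongNonpos R₂ ∧ 0 ≤ (-1) ^ 3 * gbc (K.e p) R₂) :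
    0 ≤ (-1) ^ 3 * ∫ p, K.gb p ∂μ := by
  rw [← MeasureTheory.integral_const_mul]
  refine MeasureTheory.integral_nonneg fun p => ?_
  obtain ⟨R₁, R₂, hK, h₁, hn, h₂, hs, h3⟩ := h p
  have h4 := (iff_neg (K.e p) h₂ hs).2 h3 R₁ h₁ hn
  rw [← hK] at h4
  exact h4

end Pool.Agent.U486.SN
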