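import Pool.Agent.U486.SN.Neg
import Pool.Agent.W688.HD.BAS

/-!
# Strongly nonpositive tensors with a nullity vector
-/

set_option autoImplicit false

namespace Pool.Agent.U486.SN

open Finset Pool.Agent.Y195.HF Pool.Agent.W666.GB Pool.Agent.U486.HF Pool.Agent.R65.HP
open Pool.Agent.W669.HD hiding phi kap

variable {V : Type} [NormedAddCommGroup V] [InnerProductSpace ℝ V]

theorem exists_basis (e : OrthonormalBasis (Fin 3 × Bool) ℝ V) {x : V} (hx : x ≠ 0) :
    ∃ (e' : OrthonormalBasis (Fin 3 × Bool) ℝ V) (t : ℝ), e' (0, false) = t • x := by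
  have hcard : Module.finrank ℝ V = Fintype.card (Fin 3 × Bool) :=
    Module.finrank_eq_card_basis e.toBasis
  haveI : FiniteDimensional ℝ V := e.toBasis.finiteDimensional_of_finite
  let v : Fin 3 × Bool → V := fun _ => ‖x‖⁻¹ • x
  have hn : ‖x‖ ≠ 0 := norm_ne_zero_iff.2 hx
  have ho : Orthonormal ℝ (({(0, false)} : Set (Fin 3 × Bool)).domRestrict v) := by
    constructor
    · intro i
      show ‖‖x‖⁻¹ • x‖ = 1
      rw [norm_smul, norm_inv, norm_norm, inv_mul_cancel₀ hn]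
    · intro i j hij
      exact absurd (Subsingleton.elim i j) hij
  obtain ⟨e', he'⟩ := ho.exists_orthonormalBasis_extension_of_card_eq hcard
  exact ⟨e', ‖x‖⁻¹, he' (0, false) rfl⟩

theorem gbc_null (e : OrthonormalBasis (Fin 3 × Bool) ℝ V) {R : V → V → V → V → ℝ}
    (hR : AlgCurv R) {x : V} (hx : x ≠ 0) (h : ∀ y z w, R x y z w = 0) : gbc e R = 0 := by
  obtain ⟨e', t, he'⟩ := exists_basis e hx
  rw [Pool.Agent.W688.HD.bas 3 V e e' R hR]
  have h2 : ∀ y z w, R (e' (0, false)) y z w = 0 := by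
    intro y z w
    rw [he', hR.smul, h, mul_zero]
  unfold gbc
  rw [Finset.sum_eq_zero, mul_zero]
  intro σ _
  refine Finset.sum_eq_zero fun τ _ => ?_
  rw [Finset.prod_eq_zero (i := (σ.symm (0, false)).1) (Finset.mem_univ _), mul_zero]
  have h1 : σ (σ.symm (0, false)) = (0, false) := σ.apply_symm_apply _
  rcases hb : σ.symm (0, false) with ⟨b, c⟩
  rw [hb] at h1
  cases c
  · simp only
    rw [h1]
    exact h2 _ _ _
  · simp only
    rw [h1, hR.anti, h2, neg_zero]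

/-- At the point `R` is the sum of a curvature tensor with nonpositive curvature operator and a
strongly nonpositive one whose own Gauss–Bonnet–Chern integrand has the sign `(-1)³`, or which has
a nullity vector. -/
def SumNeg (e : OrthonormalBasis (Fin 3 × Bool) ℝ V) (R : V → V → V → V → ℝ) : Prop :=
  ∃ R₁ R₂ : V → V → V → V → ℝ, R = addT R₁ R₂ ∧ AlgCurv R₁ ∧ OpNonneg (negT R₁) ∧
    AlgCurv R₂ ∧ StrongNonpos R₂ ∧
    (0 ≤ (-1) ^ 3 * gbc e R₂ ∨ ∃ x : V, x ≠ 0 ∧ ∀ y z w, R₂ x y z w = 0)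

theorem sum_neg (e : OrthonormalBasis (Fin 3 × Bool) ℝ V) {R : V → V → V → V → ℝ}
    (h : SumNeg e R) : 0 ≤ (-1) ^ 3 * gbc e R := by
  obtain ⟨R₁, R₂, rfl, h₁, hn, h₂, hs, h3⟩ := h
  refine (iff_neg e h₂ hs).2 ?_ R₁ h₁ hn
  rcases h3 with h3 | ⟨x, hx, h3⟩
  · exact h3
  · rw [gbc_null e h₂ hx h3, mul_zero]

theorem field_sum_neg {M : Type} [MeasurableSpace M] (μ : MeasureTheory.Measure M)
    (K : CurvField 3 M) (h : ∀ p, SumNeg (K.e p) (K.R p)) : 0 ≤ (-1) ^ 3 * ∫ p, K.gb p ∂μ := by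
  rw [← MeasureTheory.integral_const_mul]
  exact MeasureTheory.integral_nonneg fun p => sum_neg (K.e p) (h p)

end Pool.Agent.U486.SN
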