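import Pool.Agent.U486.HF.Comm
import Mathlib.LinearAlgebra.Matrix.ToLinearEquiv

/-!
# The mixed Pfaffian of three matrices of size six
-/

set_option autoImplicit false

namespace Pool.Agent.U486.SN

open Finset

/-- indices -/
abbrev J6 := Fin 3 × Bool

/-- real matrices of size six -/
abbrev Rm := J6 → J6 → ℝ

/-- the mixed Pfaffian -/
def lr (A B C : Rm) : ℝ :=
  ∑ σ : Equiv.Perm J6, ((Equiv.Perm.sign σ : ℤ) : ℝ) * (A (σ (0, false)) (σ (0, true)) *
    B (σ (1, false)) (σ (1, true)) * C (σ (2, false)) (σ (2, true)))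

theorem lr_add (A A' B C : Rm) : lr (A + A') B C = lr A B C + lr A' B C := by
  unfold lr
  rw [← Finset.sum_add_distrib]
  refine Finset.sum_congr rfl fun σ _ => ?_
  simp only [Pi.add_apply]
  ring

theorem lr_smul (t : ℝ) (A B C : Rm) : lr (t • A) B C = t * lr A B C := by
  unfold lr
  rw [Finset.mul_sum]
  refine Finset.sum_congr rfl fun σ _ => ?_
  simp only [Pi.smul_apply, smul_eq_mul]
  ring

theorem lr_swap₁ (A B C : Rm) : lr B A C = lr A B C := by
  unfold lr
  rw [← Equiv.sum_comp (Equiv.mulRight ((Equiv.swap (0 : Fin 3) 1).prodCongr (Equiv.refl Bool)))]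
  refine Finset.sum_congr rfl fun σ _ => ?_
  have h : Equiv.Perm.sign ((Equiv.swap (0 : Fin 3) 1).prodCongr (Equiv.refl Bool)) = 1 := by
    decide
  simp only [Equiv.coe_mulRight, map_mul, h, mul_one, Equiv.Perm.mul_apply,
    Equiv.prodCongr_apply, Prod.map, Equiv.refl_apply, Equiv.swap_apply_left,
    Equiv.swap_apply_right]
  have h2 : Equiv.swap (0 : Fin 3) 1 2 = 2 := by decide
  rw [h2]
  ring

theorem lr_swap₂ (A B C : Rm) : lr A C B = lr A B C := by
  unfold lr
  rw [← Equiv.sum_comp (Equiv.mulRight ((Equiv.swap (1 : Fin 3) 2).prodCongr (Equiv.refl Bool)))]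
  refine Finset.sum_congr rfl fun σ _ => ?_
  have h : Equiv.Perm.sign ((Equiv.swap (1 : Fin 3) 2).prodCongr (Equiv.refl Bool)) = 1 := by
    decide
  simp only [Equiv.coe_mulRight, map_mul, h, mul_one, Equiv.Perm.mul_apply,
    Equiv.prodCongr_apply, Prod.map, Equiv.refl_apply, Equiv.swap_apply_left,
    Equiv.swap_apply_right]
  have h2 : Equiv.swap (1 : Fin 3) 2 0 = 0 := by decide
  rw [h2]
  ring

theorem lr_transpose (A B C : Rm) : lr (fun i j => A j i) B C = - lr A B C := by
  unfold lr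
  rw [← Equiv.sum_comp (Equiv.mulRight (Equiv.swap ((0 : Fin 3), false) (0, true))),
    ← Finset.sum_neg_distrib]
  refine Finset.sum_congr rfl fun σ _ => ?_
  have h : Equiv.Perm.sign (Equiv.swap ((0 : Fin 3), false) (0, true)) = -1 := by decide
  have h1 : Equiv.swap ((0 : Fin 3), false) (0, true) (1, false) = (1, false) := by decide
  have h2 : Equiv.swap ((0 : Fin 3), false) (0, true) (1, true) = (1, true) := by decide
  have h3 : Equiv.swap ((0 : Fin 3), false) (0, true) (2, false) = (2, false) := by decide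
  have h4 : Equiv.swap ((0 : Fin 3), false) (0, true) (2, true) = (2, true) := by decide
  simp only [Equiv.coe_mulRight, map_mul, h, mul_one, Equiv.Perm.mul_apply,
    Equiv.swap_apply_left, Equiv.swap_apply_right, h1, h2, h3, h4]
  push_cast
  ring

/-- rank one matrices -/
def tens (x y : J6 → ℝ) : Rm := fun i j => x i * y j

/-- the matrix with given columns -/
def cols (x y : Fin 3 → J6 → ℝ) : Matrix J6 J6 ℝ :=
  Matrix.of fun i k => if k.2 = true then y k.1 i else x k.1 i

theorem lr_tens (x y : Fin 3 → J6 → ℝ) (a b c : Fin 3) :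
    lr (tens (x a) (y a)) (tens (x b) (y b)) (tens (x c) (y c)) =
      ((cols x y).submatrix id fun k => (![a, b, c] k.1, k.2)).det := by
  rw [Matrix.det_apply]
  unfold lr
  refine Finset.sum_congr rfl fun σ _ => ?_
  rw [Fintype.prod_prod_type, Fin.prod_univ_three]
  simp only [Fintype.prod_bool, Matrix.submatrix_apply, id, cols, Matrix.of_apply, tens,
    Matrix.cons_val_zero, Matrix.cons_val_one, Matrix.cons_val_two, Matrix.head_cons,
    Matrix.tail_cons, if_true, Bool.false_eq_true, if_false, Matrix.cons_val]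
  rw [Units.smul_def, zsmul_eq_mul]
  ring

theorem lr_tens_rep (x y : Fin 3 → J6 → ℝ) (a b : Fin 3) :
    lr (tens (x a) (y a)) (tens (x a) (y a)) (tens (x b) (y b)) = 0 := by
  rw [lr_tens]
  refine Matrix.det_zero_of_column_eq (i := ((0 : Fin 3), false)) (j := ((1 : Fin 3), false))
    (by decide) fun k => ?_
  simp [Matrix.submatrix_apply]

theorem lr_tens_det (x y : Fin 3 → J6 → ℝ) :
    lr (tens (x 0) (y 0)) (tens (x 1) (y 1)) (tens (x 2) (y 2)) = (cols x y).det := by
  rw [lr_tens]
  congr 1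
  ext i k
  obtain ⟨k, s⟩ := k
  fin_cases k <;> rfl

/-- sum of bivectors -/
def sb (x y : Fin 3 → J6 → ℝ) : Rm := fun i j => ∑ k, (x k i * y k j - x k j * y k i)

theorem lr_skew (A B C : Rm) : lr (fun i j => A i j - A j i) B C = 2 * lr A B C := by
  have h : (fun i j => A i j - A j i : Rm) = A + (-1 : ℝ) • (fun i j => A j i : Rm) := by
    funext i j
    simp only [Pi.add_apply, Pi.smul_apply, smul_eq_mul]
    ring
  rw [h, lr_add, lr_smul, lr_transpose]
  ring

/-- the Pfaffian of a sum of bivectors -/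
theorem lr_sb (x y : Fin 3 → J6 → ℝ) : lr (sb x y) (sb x y) (sb x y) = 48 * (cols x y).det := by
  set D : Rm := tens (x 0) (y 0) + tens (x 1) (y 1) + tens (x 2) (y 2) with hD
  have h1 : sb x y = fun i j => D i j - D j i := by
    funext i j
    simp only [sb, hD, Fin.sum_univ_three, Pi.add_apply, tens]
    ring
  have a2 : ∀ A B C, lr A (fun i j => B i j - B j i) C = 2 * lr A B C := by
    intro A B C
    rw [← lr_swap₁, lr_skew, lr_swap₁]
  have a3 : ∀ A B C, lr A B (fun i j => C i j - C j i) = 2 * lr A B C := by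
    intro A B C
    rw [← lr_swap₂, a2, lr_swap₂]
  have h2 : lr (sb x y) (sb x y) (sb x y) = 8 * lr D D D := by
    rw [h1, lr_skew, a2, a3]
    ring
  have b2 : ∀ A B B' C, lr A (B + B') C = lr A B C + lr A B' C := by
    intro A B B' C
    rw [← lr_swap₁, lr_add, lr_swap₁ A B, lr_swap₁ A B']
  have b3 : ∀ A B C C', lr A B (C + C') = lr A B C + lr A B C' := by
    intro A B C C'
    rw [← lr_swap₂, b2, lr_swap₂ A B C, lr_swap₂ A B C']
  have r0 := fun a b => lr_tens_rep x y a b
  have r1 : ∀ a b, lr (tens (x a) (y a)) (tens (x b) (y b)) (tens (x a) (y a)) = 0 := by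
    intro a b
    rw [lr_swap₂, r0]
  have r2 : ∀ a b, lr (tens (x b) (y b)) (tens (x a) (y a)) (tens (x a) (y a)) = 0 := by
    intro a b
    rw [lr_swap₁, r1]
  have s0 := lr_tens_det x y
  have s1 : lr (tens (x 0) (y 0)) (tens (x 2) (y 2)) (tens (x 1) (y 1)) = (cols x y).det := by
    rw [lr_swap₂, s0]
  have s2 : lr (tens (x 1) (y 1)) (tens (x 0) (y 0)) (tens (x 2) (y 2)) = (cols x y).det := by
    rw [lr_swap₁, s0]
  have s3 : lr (tens (x 1) (y 1)) (tens (x 2) (y 2)) (tens (x 0) (y 0)) = (cols x y).det := by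
    rw [lr_swap₂, s2]
  have s4 : lr (tens (x 2) (y 2)) (tens (x 0) (y 0)) (tens (x 1) (y 1)) = (cols x y).det := by
    rw [lr_swap₁, s1]
  have s5 : lr (tens (x 2) (y 2)) (tens (x 1) (y 1)) (tens (x 0) (y 0)) = (cols x y).det := by
    rw [lr_swap₂, s4]
  rw [h2, hD]
  simp only [lr_add, b2, b3, r0, r1, r2, s0, s1, s2, s3, s4, s5]
  ring

end Pool.Agent.U486.SN
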