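import Pool.Agent.U486.SN.Any
import Pool.Agent.R65.HP.Pos

/-!
# Strongly nonnegative curvature tensors in dimension six
-/

set_option autoImplicit false

namespace Pool.Agent.U486.SN

open Finset Pool.Agent.Y195.HF Pool.Agent.W666.GB Pool.Agent.U486.HF Pool.Agent.R65.HP
open Pool.Agent.W669.HD hiding phi kap

variable {V : Type} [NormedAddCommGroup V] [InnerProductSpace ℝ V]

/-- Strongly nonnegative: the tensor becomes nonnegative on all bivectors after adding a
`4`-form. -/
def StrongNonneg (R : V → V → V → V → ℝ) : Prop :=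
  ∃ ω : V → V → V → V → ℝ, FourForm ω ∧ OpNonneg (addT R ω)

/-- a strongly nonnegative curvature tensor is a sum of tensors of skew forms -/
theorem strong_skew {J : Type} [Fintype J] (e : J → V) {R : V → V → V → V → ℝ} (hR : AlgCurv R)
    (h : StrongNonneg R) : ∃ (K : ℕ) (A : Fin K → J → J → ℝ), (∀ k i j, A k j i = - A k i j) ∧
      ∀ i j k l, R (e i) (e j) (e k) (e l) =
        ∑ a, (2 * (A a i j * A a k l) + A a i k * A a j l - A a i l * A a j k) := by
  obtain ⟨ω, hω, hn⟩ := h
  have hb : BiForm (addT R ω) :=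
    Pool.Agent.W150.HD.add_bi (Pool.Agent.W150.HD.curv_bi hR) hω.toBiForm
  obtain ⟨n, ν, hν, hS⟩ := hb.squares e hn
  refine ⟨n, fun a i j => ν a i j / Real.sqrt 3, fun k i j => by simp only [hν k i j]; ring, ?_⟩
  intro i j k l
  have h3 : Real.sqrt 3 * Real.sqrt 3 = 3 := Real.mul_self_sqrt (by norm_num)
  have hq : ∀ x y : ℝ, x / Real.sqrt 3 * (y / Real.sqrt 3) = x * y / 3 := by
    intro x y
    rw [div_mul_div_comm, h3]
  have e1 : ∑ a, (2 * (ν a i j / Real.sqrt 3 * (ν a k l / Real.sqrt 3)) +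
      ν a i k / Real.sqrt 3 * (ν a j l / Real.sqrt 3) -
      ν a i l / Real.sqrt 3 * (ν a j k / Real.sqrt 3)) =
      (2 * ∑ a, ν a i j * ν a k l + ∑ a, ν a i k * ν a j l - ∑ a, ν a i l * ν a j k) / 3 := by
    simp only [hq]
    rw [Finset.mul_sum, ← Finset.sum_add_distrib, ← Finset.sum_sub_distrib, Finset.sum_div]
    refine Finset.sum_congr rfl fun a _ => ?_
    ring
  rw [e1, ← hS, ← hS, ← hS]
  simp only [addT]
  have w1 : ω (e i) (e k) (e j) (e l) = - ω (e i) (e j) (e k) (e l) := hω.alt _ _ _ _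
  have w2 : ω (e i) (e l) (e j) (e k) = ω (e i) (e j) (e k) (e l) := by
    rw [hω.alt, hω.toBiForm.a34, neg_neg]
  have r1 : R (e i) (e k) (e j) (e l) = - R (e k) (e i) (e j) (e l) := by
    rw [← hR.anti]
  have r2 : R (e i) (e l) (e j) (e k) = R (e j) (e k) (e i) (e l) := hR.pair _ _ _ _
  have r3 := hR.bianchi (e i) (e j) (e k) (e l)
  rw [w1, w2, r1, r2]
  linarith

theorem gbc_pos_const : 0 < 1 / ((8 * Real.pi) ^ 3 * (Nat.factorial 3 : ℝ)) := by
  have hπ := Real.pi_pos
  positivity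

/-- superadditivity in dimension six -/
theorem super_pos (e : OrthonormalBasis (Fin 3 × Bool) ℝ V) {R₁ R₂ : V → V → V → V → ℝ}
    (h₁ : AlgCurv R₁) (hn : OpNonneg R₁) (h₂ : AlgCurv R₂) (hs : StrongNonneg R₂) :
    gbc e R₁ + gbc e R₂ ≤ gbc e (addT R₁ R₂) := by
  obtain ⟨K, A, hA, hR⟩ := strong_skew (fun i => e i) h₂ hs
  have hC : cp e R₂ = fun i j k l => ∑ a, scR (A a) i j k l := by
    funext i j k l
    simp only [cp, scR, hR i j k l]
  have h1 := gm_any (P := cp e R₁) (C := cp e R₂) (adm_cp e h₁ hn) hA (by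
    rw [hC]; exact eL_sum_sc A)
  rw [gbc_gm, gbc_gm, gbc_gm, ← mul_add]
  exact mul_le_mul_of_nonneg_left h1 gbc_pos_const.le

/-- the comparison theorem in dimension six -/
theorem compare_pos (e : OrthonormalBasis (Fin 3 × Bool) ℝ V) {R F : V → V → V → V → ℝ}
    (hF : AlgCurv F) (hFn : OpNonneg F) (hR : AlgCurv R)
    (h1 : OpNonneg (fun x y z w => R x y z w + 2 * F x y z w))
    (h2 : StrongNonneg (addT R (negT F))) : gbc e F ≤ gbc e R := by
  have hC0 : AlgCurv (addT R (negT F)) := add_curv hR (Pool.Agent.Y195.HF.neg_curv hF)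
  have hP0 : AlgCurv (fun x y z w => R x y z w + 2 * F x y z w) := {
    add := fun x x' y z w => by simp only [hF.add, hR.add]; ring
    smul := fun t x y z w => by simp only [hF.smul, hR.smul]; ring
    anti := fun x y z w => by rw [hF.anti, hR.anti]; ring
    pair := fun x y z w => by rw [hF.pair, hR.pair]
    bianchi := fun x y z w => by
      have e1 := hF.bianchi x y z w
      have e2 := hR.bianchi x y z w
      linarith }
  obtain ⟨K, A, hA, hRA⟩ := strong_skew (fun i => e i) hC0 h2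
  have hC : cp e (addT R (negT F)) = fun i j k l => ∑ a, scR (A a) i j k l := by
    funext i j k l
    simp only [cp, scR, hRA i j k l]
  have key := gm_compare (F := cp e F) (P := cp e fun x y z w => R x y z w + 2 * F x y z w)
    (C := cp e (addT R (negT F))) (adm_cp e hF hFn) (adm_cp e hP0 h1) hA (by
      rw [hC]; exact eL_sum_sc A) (by
      intro i j k l
      simp only [cp, addT, negT]
      ring)
  have e1 : (fun i j k l => cp e F i j k l + cp e (addT R (negT F)) i j k l : T4 3) =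
      cp e R := by
    funext i j k l
    simp only [cp, addT, negT]
    ring
  rw [e1] at key
  rw [gbc_gm, gbc_gm]
  exact mul_le_mul_of_nonneg_left key gbc_pos_const.le

theorem op_gbc_nonneg (e : OrthonormalBasis (Fin 3 × Bool) ℝ V) {F : V → V → V → V → ℝ}
    (hF : AlgCurv F) (hFn : OpNonneg F) : 0 ≤ gbc e F := by
  have h0 : AlgCurv (fun _ _ _ _ : V => (0 : ℝ)) :=
    ⟨by simp, by simp, by simp, by simp, by simp⟩
  have hz : OpNonneg (fun _ _ _ _ : V => (0 : ℝ)) := fun n x y => by simp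
  have h := compare_pos e (F := fun _ _ _ _ => 0) (R := F) h0 hz hF (by simpa using hFn)
    ⟨fun _ _ _ _ => 0, ⟨⟨by simp, by simp, by simp, by simp⟩, by simp⟩, by
      have e2 : addT (addT F (negT fun _ _ _ _ => 0)) (fun _ _ _ _ => 0) = F := by
        funext x y z w
        simp [addT, negT]
      rw [e2]
      exact hFn⟩
  have e1 : gbc e (fun _ _ _ _ : V => (0 : ℝ)) = 0 := by
    have h3 := gbc_unit e 0
    simp only [zero_mul] at h3
    rw [h3]
    simp [roundGB]
  rwa [e1] at h

/-- the criterion in dimension six -/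
theorem iff_pos (e : OrthonormalBasis (Fin 3 × Bool) ℝ V) {R₂ : V → V → V → V → ℝ}
    (h₂ : AlgCurv R₂) (hs : StrongNonneg R₂) :
    (∀ R₁ : V → V → V → V → ℝ, AlgCurv R₁ → OpNonneg R₁ → 0 ≤ gbc e (addT R₁ R₂)) ↔
      0 ≤ gbc e R₂ := by
  constructor
  · intro h
    have h0 : AlgCurv (fun _ _ _ _ : V => (0 : ℝ)) :=
      ⟨by simp, by simp, by simp, by simp, by simp⟩
    have h1 := h _ h0 (fun n x y => by simp)
    have h3 : addT (fun _ _ _ _ : V => (0 : ℝ)) R₂ = R₂ := by
      funext x y z w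
      simp [addT]
    rwa [h3] at h1
  · intro h R₁ h₁ hn
    have h1 := super_pos e h₁ hn h₂ hs
    have h3 := op_gbc_nonneg e h₁ hn
    linarith

end Pool.Agent.U486.SN
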